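import Pool.Agent.H86.Gap.Main

/-!
# Degree gap: non-local trace brackets have huge degrees on words of logarithmic length

For a trace family of brackets (the Jacobi identity is not needed) there is a dichotomy.  Either
the induced bracket on `A/[A,A]` is given by a matrix of local operators, as asked for in Q1, and
then the degree of the bracket of two words exceeds the total length of the words by a bounded
amount only; or for infinitely many `m` there are two words of length at most `5 log_N m` whose
bracket has degree larger than `2 m - 10 log_N m` on `m × m` matrices.  So the degrees of a
counterexample to Q1 grow exponentially with the length of the words (along a sequence), and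
exceed essentially the degree `2 m` of the standard identity of `m × m` matrices.  In particular
Q1 holds whenever the degree of the bracket of two words is bounded by a polynomial in their
lengths, for instance for brackets which are homogeneous for a grading with arbitrary positive
weights of the generators.
-/

set_option autoImplicit false

open Pool.Agent.H70.TP

namespace Pool.Agent.Results.MP_f76180_mp.DegreeGap

/-- Let `br m` (`m ≥ 1`) be a family of conjugation invariant skew-symmetric biderivations of the
polynomial functions on `N` generic `m × m` matrices (the Jacobi identity is not needed) for which
the bracket of two traces is the trace of a noncommutative polynomial independent of `m`. Then the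
following are equivalent: the induced bracket on `A/[A,A]` is given by a matrix of local
operators; the degree of the bracket of the traces of any two words exceeds the total length of
the words by at most a constant which depends neither on the words nor on `m`; for all large `m`
the bracket on `m × m` matrices of the traces of any two words of length at most
`5 ⌊log_N m⌋` has degree at most `2 m - 10 ⌊log_N m⌋`. -/
theorem result (N : ℕ) (br : ∀ m : ℕ, PR N m →ₗ[ℂ] PR N m →ₗ[ℂ] PR N m)
    (h : IsTraceFamily N br) :
    List.TFAE [InducedLocal br,
      ∃ d : ℕ, ∀ m, 0 < m → ∀ w₁ w₂ : List (Fin N),
        (br m (tr N m (wd w₁)) (tr N m (wd w₂))).totalDegree ≤ w₁.length + w₂.length + d,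
      ∃ m₀ : ℕ, ∀ m, m₀ ≤ m → ∀ w₁ w₂ : List (Fin N),
        w₁.length ≤ 5 * Nat.log N m → w₂.length ≤ 5 * Nat.log N m →
        (br m (tr N m (wd w₁)) (tr N m (wd w₂))).totalDegree + 10 * Nat.log N m ≤ 2 * m] :=
  Pool.Agent.H86.Gap.gap_tfae N br h

end Pool.Agent.Results.MP_f76180_mp.DegreeGap
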