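import Pool.Agent.H70.TP.Final

set_option autoImplicit false

open Pool.Agent.H70.TP

namespace Pool.Agent.Results.MP_f76180_mp.LocalExpansion

/-- For every trace family of skew-symmetric biderivations (the Jacobi identity and bounds on
degrees are not needed) the induced bracket on `A/[A,A]` is a locally finite sum of brackets
given by matrices of homogeneous local operators: there are matrices `Θ r` of local operators which
are homogeneous of degree `r`, such that for all `P₁`, `P₂` the induced bracket of their classes
is the class of the partial sum over `r < R` of the brackets given by `Θ r`, for every large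
`R`. -/
theorem result (N : ℕ) (br : ∀ m : ℕ, PR N m →ₗ[ℂ] PR N m →ₗ[ℂ] PR N m)
    (h : IsTraceFamily N br) :
    ∃ Θ : ℕ → Fin N → Fin N → Module.End ℂ (FA N), (∀ r i j, Θ r i j ∈ localOps N r) ∧
      ∀ (P₁ P₂ P₃ : FA N) (f g : Fin N → FA N), (∀ k, IsGrad k P₁ (f k)) →
        (∀ k, IsGrad k P₂ (g k)) → Represents br P₁ P₂ P₃ →
        ∃ R₀ : ℕ, ∀ R, R₀ ≤ R →
          P₃ - ∑ r ∈ Finset.range R, ∑ i, ∑ j, f i * Θ r i j (g j) ∈ comm (FA N) :=
  expansion N br h

end Pool.Agent.Results.MP_f76180_mp.LocalExpansion
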